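import Pool.Agent.H.MP_7b05dd_co.E
import Pool.Agent.H.MP_4eb715_lc.C
import Pool.Agent.Lib.helper21.Dfa

/-! Atomicity and well-quasi-order are decidable for digraphs, tournaments and partial orders
under consecutive embeddings. -/

namespace Pool.Agent.Results.MP_7b05dd_co.Dec

/-- A binary relation on `Fin n`, whose natural order is the extra linear order. -/
abbrev OS : Type := Σ n : ℕ, Fin n → Fin n → Prop

def IsDigraph (x : OS) : Prop := ∀ a, ¬x.2 a a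

def IsTournament (x : OS) : Prop := (∀ a, ¬x.2 a a) ∧ ∀ a b, a ≠ b → (x.2 a b ↔ ¬x.2 b a)

def IsPoset (x : OS) : Prop :=
  (∀ a, x.2 a a) ∧ (∀ a b, x.2 a b → x.2 b a → a = b) ∧ ∀ a b c, x.2 a b → x.2 b c → x.2 a c

/-- `F` has a consecutive embedding into `G`. -/
def Le (F G : OS) : Prop := ∃ (i : ℕ) (h : i + F.1 ≤ G.1), ∀ a b : Fin F.1,
  F.2 a b ↔ G.2 ⟨i + a, by omega⟩ ⟨i + b, by omega⟩

/-- The structure coded by its size and the list of its related pairs. -/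
def str (c : ℕ × List (ℕ × ℕ)) : OS := ⟨c.1, fun a b => (a.val, b.val) ∈ c.2⟩

/-- The nonempty members of the class `T` avoiding every member of `B`. -/
def Av (T : OS → Prop) (B : List (ℕ × List (ℕ × ℕ))) : Set OS :=
  {x | 0 < x.1 ∧ T x ∧ ∀ c ∈ B, ¬Le (str c) x}

/-- The joint embedding property. -/
def Atomic (T : OS → Prop) (B : List (ℕ × List (ℕ × ℕ))) : Prop :=
  ∀ x ∈ Av T B, ∀ y ∈ Av T B, ∃ z ∈ Av T B, Le x z ∧ Le y z

/-- Every antichain is finite. -/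
def Wqo (T : OS → Prop) (B : List (ℕ × List (ℕ × ℕ))) : Prop :=
  ∀ S ⊆ Av T B, (∀ x ∈ S, ∀ y ∈ S, Le x y → x = y) → S.Finite

open Pool.Agent.H.MP_7b05dd_co Pool.Agent.H.MP_4eb715_lc Pool.Agent.Lib.helper21.PR

def toP (x : OS) : Pc :=
  ⟨x.1, fun a b => ∃ (ha : a < x.1) (hb : b < x.1), x.2 ⟨a, ha⟩ ⟨b, hb⟩, fun h => ⟨h.1, h.2.1⟩⟩

theorem toP_E (x : OS) (a b : Fin x.1) : (toP x).E a b ↔ x.2 a b :=
  ⟨fun h => h.2.2, fun h => ⟨a.2, b.2, h⟩⟩

theorem toP_surj (y : Pc) : ∃ x, toP x = y :=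
  ⟨⟨y.n, fun a b => y.E a b⟩, pc_ext rfl fun a ha b hb =>
    toP_E ⟨y.n, fun a b => y.E a b⟩ ⟨a, ha⟩ ⟨b, hb⟩⟩

theorem toP_inj : Function.Injective toP := by
  rintro ⟨n, R⟩ ⟨n', R'⟩ h
  obtain rfl : n = n' := congrArg Pc.n h
  congr
  funext a b
  exact propext ((toP_E ⟨n, R⟩ a b).symm.trans (h ▸ toP_E ⟨n, R'⟩ a b))

theorem toP_str (c : Cd) : toP (str c) = P c := pc_ext rfl fun _ ha _ hb =>
  ⟨fun h => ⟨ha, hb, h.2.2⟩, fun h => ⟨ha, hb, h.2.2⟩⟩

theorem le_iff (x y : OS) : Le x y ↔ ∃ i, occ (toP x) (toP y) i :=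
  exists_congr fun _ => ⟨fun ⟨h, g⟩ => ⟨h, fun a ha b hb => (toP_E x ⟨a, ha⟩ ⟨b, hb⟩).trans
    ((g _ _).trans (toP_E y _ _).symm)⟩, fun ⟨h, g⟩ => ⟨h, fun a b => (toP_E x a b).symm.trans
      ((g a a.2 b b.2).trans (toP_E y ⟨_, _⟩ ⟨_, _⟩))⟩⟩

def Bs (B : List Cd) : Set Pc := P '' {c | c ∈ B}

def mB (B : List Cd) : ℕ := (B.map fun c => c.1).sum + 1

theorem le_mB (B : List Cd) : ∀ b ∈ Bs B, b.n ≤ mB B := by
  rintro _ ⟨c, hc, rfl⟩
  exact (List.le_sum_of_mem (List.mem_map_of_mem (f := fun c : Cd => c.1) hc)).trans (Nat.le_succ _)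

variable {φ : Loc}

theorem ok_iff (B : List Cd) (x : Pc) : ok φ (Bs B) x ↔
    0 < x.n ∧ K φ (· < x.n) x.E ∧ ∀ b ∈ B, ∀ i ≤ x.n, ¬occ (P b) x i := by
  refine and_congr_right fun _ => and_congr_right fun _ => ⟨fun h b hb i _ => h _ ⟨b, hb, rfl⟩ i, ?_⟩
  rintro h _ ⟨b, hb, rfl⟩ i g
  exact h b hb i (by have := g.1; omega) g

def Pos (φ : Loc) (B : List Cd) (n : ℕ) : Prop :=
  ∃ t ∈ codes n, ∃ M ≤ n, ∃ M' ≤ n, H.MP_7b05dd_co.Cert φ (Bs B) (mB B) (P t) M M'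

def Neg (φ : Loc) (B : List Cd) (n : ℕ) : Prop := ∃ x ∈ codes n, ∃ y ∈ codes n,
  ok φ (Bs B) (P x) ∧ ok φ (Bs B) (P y) ∧ ¬∃ w : Pc, w.n ≤ (P x).n + (P y).n + N (mB B) ∧
    JW φ (Bs B) w (P x) (P y) fun _ _ => True

section
attribute [local irreducible] Primrec Computable

variable {α : Type} [Primcodable α]

@[fun_prop] theorem p_n {c : α → Cd} (hc : Primrec c) : Primrec fun a => (P (c a)).n := by
  unfold P; fun_prop

@[fun_prop] theorem p_E {c : α → Cd} {u v : α → ℕ} (hc : Primrec c) (hu : Primrec u)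
    (hv : Primrec v) : Primrec fun a => cd ((P (c a)).E (u a) (v a)) := by
  unfold P; fun_prop

@[fun_prop] theorem p_occ {c d : α → Cd} {u : α → ℕ} (hc : Primrec c) (hd : Primrec d)
    (hu : Primrec u) : Primrec fun a => cd (occ (P (c a)) (P (d a)) (u a)) := by
  unfold occ; fun_prop

@[fun_prop] theorem p_W {c d : α → Cd} {m u v : α → ℕ} (hc : Primrec c) (hd : Primrec d)
    (hm : Primrec m) (hu : Primrec u) (hv : Primrec v) :
    Primrec fun a => cd (W (m a) (P (c a)) (u a) (P (d a)) (v a)) := by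
  unfold W; fun_prop

@[fun_prop] theorem p_codes {u : α → ℕ} (hu : Primrec u) : Primrec fun a => codes (u a) := by
  unfold codes; fun_prop

@[fun_prop] theorem p_N {u : α → ℕ} (hu : Primrec u) : Primrec fun a => N (u a) := by
  unfold N C; fun_prop

@[fun_prop] theorem p_mB {B : α → List Cd} (hB : Primrec B) : Primrec fun a => mB (B a) := by
  unfold mB; fun_prop

class PK (φ : Loc) : Prop where
  p : Primrec fun c : Cd => cd (K φ (· < (P c).n) (P c).E)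

instance : PK φD := ⟨by simp only [KD]; fun_prop⟩
instance : PK φT := ⟨by simp only [KT]; fun_prop⟩
instance : PK φP := ⟨by simp only [KP]; fun_prop⟩

variable [PK φ]

@[fun_prop] theorem p_K {c : α → Cd} (hc : Primrec c) :
    Primrec fun a => cd (K φ (· < (P (c a)).n) (P (c a)).E) := PK.p.comp hc

@[fun_prop] theorem p_ok {B : α → List Cd} {c : α → Cd} (hB : Primrec B) (hc : Primrec c) :
    Primrec fun a => cd (ok φ (Bs (B a)) (P (c a))) := by
  simp only [ok_iff]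
  exact p_dand (by fun_prop) (p_dand (p_K hc) (by fun_prop))

theorem p_pos : Primrec fun z : List Cd × ℕ => cd (Pos φ z.1 z.2) := by
  simp only [Pos, H.MP_7b05dd_co.Cert, cF, cD, cU, cE, cG, JW, all_iff, ex_iff]
  fun_prop (maxTransitionDepth := 2) (maxSteps := 10000000)

theorem p_neg : Primrec fun z : List Cd × ℕ => cd (Neg φ z.1 z.2) := by
  simp only [Neg, JW, ex_iff]
  fun_prop

theorem p_wb : Primrec fun B : List Cd => cd (Wb φ (Bs B) (mB B)) := by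
  simp only [Wb, Amb, Bad, ex_iff]
  fun_prop (maxTransitionDepth := 2) (maxSteps := 10000000)

end

theorem main [PK φ] (hφ : Amal φ) {T : OS → Prop} (hT : ∀ x, T x ↔ K φ (· < x.1) (toP x).E) :
    ComputablePred (Atomic T) ∧ ComputablePred (Wqo T) := by
  have av : ∀ B x, x ∈ Av T B ↔ ok φ (Bs B) (toP x) := fun B x => by
    simp only [Av, Set.mem_setOf_eq, hT, le_iff, toP_str, ok, Bs, Set.forall_mem_image, not_exists]
    rfl
  have at' : ∀ B, Atomic T B ↔ Atom φ (Bs B) := fun B => by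
    simp only [Atomic, av, le_iff]
    constructor
    · intro h x y hx hy
      obtain ⟨x, rfl⟩ := toP_surj x
      obtain ⟨y, rfl⟩ := toP_surj y
      obtain ⟨z, a, ⟨i, b⟩, j, c⟩ := h x hx y hy
      exact ⟨_, i, j, a, b, c⟩
    · intro h x hx y hy
      obtain ⟨z, i, j, a, b, c⟩ := h _ _ hx hy
      obtain ⟨z, rfl⟩ := toP_surj z
      exact ⟨z, a, ⟨i, b⟩, j, c⟩
  refine ⟨Pool.Agent.Lib.helper21.Dfa.dec_of_two (P := Pos φ) (N := Neg φ) (pred p_pos) (pred p_neg)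
    (fun B => ?_) fun B => ?_, (pred (p_wb (φ := φ))).computablePred.of_eq fun B => ?_⟩
  · rw [at', atom_iff hφ (Nat.succ_pos _) (le_mB B)]
    refine ⟨fun ⟨t, M, M', h⟩ => ?_, fun ⟨_, t, _, M, _, M', _, h⟩ => ⟨_, M, M', h⟩⟩
    obtain ⟨c, hc, rfl⟩ := exists_code (b := t.n + M + M') t (by omega)
    exact ⟨_, c, hc, M, by omega, M', by omega, h⟩
  · rw [at']
    constructor
    · intro h
      simp only [Atom, not_forall] at h
      obtain ⟨x, y, hx, hy, h⟩ := h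
      obtain ⟨c, hc, rfl⟩ := exists_code (b := x.n + y.n) x (by omega)
      obtain ⟨d, hd, rfl⟩ := exists_code (b := (P c).n + y.n) y (by omega)
      exact ⟨_, c, hc, d, hd, hx, hy, mt (J_iff hφ (Nat.succ_pos _) (le_mB B) hx hy).2 h⟩
    · rintro ⟨_, x, -, y, -, hx, hy, h⟩ g
      exact h ((J_iff hφ (Nat.succ_pos _) (le_mB B) hx hy).1 (g _ _ hx hy))
  · rw [← noAC_iff (m := mB B) hφ (Nat.succ_pos _) (le_mB B), noAC_anti]
    refine ⟨fun h S h1 h2 => (h (toP '' S) ?_ ?_).of_finite_image toP_inj.injOn,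
      fun h S h1 h2 => ((h (toP ⁻¹' S) (fun x hx => (av B x).2 (h1 _ hx)) fun x hx y hy g =>
        toP_inj (h2 _ hx _ hy ((le_iff x y).1 g))).image toP).subset fun y hy => ?_⟩
    · rintro _ ⟨x, hx, rfl⟩
      exact (av B x).1 (h1 hx)
    · rintro _ ⟨x, hx, rfl⟩ _ ⟨y, hy, rfl⟩ g
      rw [h2 x hx y hy ((le_iff x y).2 g)]
    · obtain ⟨x, rfl⟩ := toP_surj y
      exact ⟨x, hy, rfl⟩

theorem result : ∀ T : OS → Prop, T = IsDigraph ∨ T = IsTournament ∨ T = IsPoset →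
    ComputablePred (Atomic T) ∧ ComputablePred (Wqo T) := by
  rintro _ (rfl | rfl | rfl)
  · refine main amalD fun x => ?_
    simp only [KD, IsDigraph, ← toP_E, Fin.forall_iff]
  · refine main amalT fun x => ?_
    simp only [KT, IsTournament, ← toP_E, Fin.forall_iff, ne_eq, Fin.mk.injEq]
  · refine main amalP fun x => ?_
    simp only [KP, IsPoset, ← toP_E, Fin.forall_iff, Fin.mk.injEq]

end Pool.Agent.Results.MP_7b05dd_co.Dec
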